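import Pool.Agent.K4W.StmtsV
import Pool.Agent.K4W.StmtsF

/-!
# K4W, row VAD: the goals of block V in the form of block F
-/

set_option autoImplicit false

namespace Pool.Agent.K4W.H70

open Pool.Agent.Helper69_Weyl (ee W)
open Pool.Agent.VM (Nr)

/-- `N ^ 2 ≤ X Z ^ 1000` for `X = 8 Z ^ 127002` -/
theorem xz_low (Z N : ℕ) (hN : N ≤ 2 * Z ^ 64000) :
    2 * Z ^ 2 * N ^ 2 ≤ Xz Z * Z ^ 1000 := by
  have h1 : N ^ 2 ≤ (2 * Z ^ 64000) ^ 2 := Nat.pow_le_pow_left hN 2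
  have h2 : (2 * Z ^ 64000) ^ 2 = 4 * Z ^ 128000 := by
    rw [mul_pow, ← pow_mul]
    norm_num only
  have h3 : Xz Z * Z ^ 1000 = 8 * Z ^ 128002 := by
    unfold Xz
    rw [mul_assoc, ← pow_add]
  have h4 : Z ^ 128002 = Z ^ 2 * Z ^ 128000 := by
    rw [← pow_add]
  rw [h3, h4]
  rw [h2] at h1
  have h5 : 2 * Z ^ 2 * N ^ 2 ≤ 2 * Z ^ 2 * (4 * Z ^ 128000) := Nat.mul_le_mul_left _ h1
  calc 2 * Z ^ 2 * N ^ 2 ≤ 2 * Z ^ 2 * (4 * Z ^ 128000) := h5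
    _ = 8 * (Z ^ 2 * Z ^ 128000) := by ring

theorem xz_high (Z N : ℕ) (hN : Z ^ 64000 ≤ N) :
    Xz Z * Z ^ 1000 ≤ 16 * Z ^ 2 * N ^ 2 := by
  have h1 : (Z ^ 64000) ^ 2 ≤ N ^ 2 := Nat.pow_le_pow_left hN 2
  have h2 : (Z ^ 64000) ^ 2 = Z ^ 128000 := by
    rw [← pow_mul]
  have h3 : Xz Z * Z ^ 1000 = 8 * Z ^ 128002 := by
    unfold Xz
    rw [mul_assoc, ← pow_add]
  have h4 : Z ^ 128002 = Z ^ 2 * Z ^ 128000 := by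
    rw [← pow_add]
  rw [h3, h4]
  rw [h2] at h1
  calc 8 * (Z ^ 2 * Z ^ 128000) ≤ 16 * (Z ^ 2 * Z ^ 128000) := Nat.mul_le_mul_right _ (by norm_num)
    _ = 16 * Z ^ 2 * Z ^ 128000 := by ring
    _ ≤ 16 * Z ^ 2 * N ^ 2 := Nat.mul_le_mul_left _ h1

/-- `V1Statement` -/
theorem v1 (smo : SmoStmt) : V1Statement := by
  obtain ⟨Z₀, h⟩ := smo
  refine ⟨max Z₀ 1, fun Z hZ N Q μ a t hP h1 h2 => ?_⟩
  have hZ0 : Z₀ ≤ Z := le_trans (le_max_left _ _) hZ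
  have hZ1 : 1 ≤ Z := le_trans (le_max_right _ _) hZ
  have hP' := hP
  obtain ⟨hN1, hN2, _⟩ := hP'
  refine h Z hZ0 N Q a t hP μ h1 h2 (Xz Z) ?_ (xz_high Z N hN1)
  refine le_trans ?_ (xz_low Z N hN2)
  have h5 : 1 ≤ 2 * Z ^ 2 := by
    have := Nat.one_le_pow 2 Z hZ1
    omega
  exact Nat.le_mul_of_pos_left _ h5

/-- `V2Statement` -/
theorem v2 (vdv : VdvStmt) : V2Statement := by
  obtain ⟨Z₀, h⟩ := vdv
  refine ⟨max Z₀ 1, fun Z hZ N Y hS hY => ?_⟩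
  have hZ0 : Z₀ ≤ Z := le_trans (le_max_left _ _) hZ
  have hZ1 : 1 ≤ Z := le_trans (le_max_right _ _) hZ
  exact h Z hZ0 N hS.1 hS.2 (Xz Z) (xz_low Z N hS.2) Y hY

/-- `V3Statement` -/
theorem v3 (grd : GrdStmt) : V3Statement := by
  obtain ⟨Z₀, h⟩ := grd
  refine ⟨max Z₀ 1, fun Z hZ => ?_⟩
  have hZ0 : Z₀ ≤ Z := le_trans (le_max_left _ _) hZ
  have hZ1 : 1 ≤ Z := le_trans (le_max_right _ _) hZ
  obtain ⟨Ψ, hc, hb, hg⟩ := h Z hZ0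
  refine ⟨Ψ, hc, hb, fun α β l hl hl2 => ?_⟩
  have h1 : l * ((Z : ℝ) ^ 1000) ^ 2 ≤ 100 * (Z : ℝ) ^ 2 := by
    rw [← pow_mul]
    exact hl2
  obtain ⟨ψ, hψ, hμ⟩ := hg α β l hl h1
  refine ⟨ψ, hψ, fun μ hm => ?_⟩
  have hZp : (0 : ℝ) < (Z : ℝ) ^ 81 := by
    have : (0 : ℝ) < (Z : ℝ) := by exact_mod_cast hZ1
    positivity
  rw [le_div_iff₀ hZp]
  exact hμ μ hm

/-- the three goals of block V together -/
theorem vad (smo : SmoStmt) (vdv : VdvStmt) (grd : GrdStmt) :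
    V1Statement ∧ V2Statement ∧ V3Statement := ⟨v1 smo, v2 vdv, v3 grd⟩

end Pool.Agent.K4W.H70
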