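import Pool.Agent.K4W.StmtsU

/-!
# K4W, row UMN: the fourth power of the Weyl sum and the `U ^ 2` norm
-/

set_option autoImplicit false

namespace Pool.Agent.K4W.H70

open Pool.Agent.Helper69_Weyl (ee W)

theorem U_nonneg (g : ℤ → ℂ) (a b : ℕ) : 0 ≤ U g a b := by
  unfold U
  refine tsum_nonneg (fun h => Finset.sum_nonneg (fun c _ => ?_))
  positivity

/-- UMN -/
theorem umn (ucu : UcuStmt) (ubr : UbrStmt) : UmnStmt := by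
  obtain ⟨Z₁, h1⟩ := ucu
  obtain ⟨Z₂, h2⟩ := ubr
  refine ⟨max (max Z₁ Z₂) 22, fun Z hZ N t ξ hN1 hN2 => ?_⟩
  have hZ1 : Z₁ ≤ Z := le_trans (le_trans (le_max_left _ _) (le_max_left _ _)) hZ
  have hZ2 : Z₂ ≤ Z := le_trans (le_trans (le_max_right _ _) (le_max_left _ _)) hZ
  have hZ3 : 22 ≤ Z := le_trans (le_max_right _ _) hZ
  have hN0 : 1 ≤ N := le_trans (Nat.one_le_pow _ _ (by omega)) hN1
  have hU : 0 ≤ U (f N t 0) 1 1 := U_nonneg _ _ _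
  set V : ℝ := U (f N t 0) 1 1 + 1 with hV
  have hV1 : 1 ≤ V := by linarith
  have hZr : (22 : ℝ) ≤ (Z : ℝ) := by exact_mod_cast hZ3
  have hNr : (1 : ℝ) ≤ (N : ℝ) := by exact_mod_cast hN0
  have hNr2 : (N : ℝ) ≤ 2 * (Z : ℝ) ^ 64000 := by exact_mod_cast hN2
  set A : ℝ := 10 * (Z : ℝ) * (N : ℝ) * V with hA
  have hA0 : 0 ≤ A := by
    rw [hA]
    positivity
  set B : ℝ := Real.sqrt (Real.sqrt A) with hB
  have hB0 : 0 ≤ B := Real.sqrt_nonneg _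
  have hB4 : B ^ 4 = A := by
    have e1 : B ^ 4 = (B ^ 2) ^ 2 := by ring
    rw [e1, hB, Real.sq_sqrt (Real.sqrt_nonneg _), Real.sq_sqrt hA0]
  have hall : ∀ ξ' : ℝ, ‖∑' x : ℤ, f N t ξ' x‖ ≤ B := by
    intro ξ'
    have h3 := h2 Z hZ2 N t ξ' hN0 hN2
    have h4 : ‖∑' x : ℤ, f N t ξ' x‖ ^ 4 ≤ B ^ 4 := by
      rw [hB4]
      exact h3
    exact le_of_pow_le_pow_left₀ (by norm_num) hB0 h4
  have h5 := h1 Z hZ1 N t ξ B hN1 hN2 hB0 hall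
  rw [hB4] at h5
  have h6 : (Z : ℝ) ^ 64004 = (Z : ℝ) ^ 64000 * (Z : ℝ) ^ 4 := by
    rw [← pow_add]
  have hP : (0 : ℝ) ≤ (Z : ℝ) ^ 64000 := by positivity
  generalize (Z : ℝ) ^ 64000 = P at h6 hP hNr2
  rw [h6]
  refine le_trans h5 ?_
  have hZ0 : (0 : ℝ) < (Z : ℝ) := by linarith
  have h7 : (1 : ℝ) ≤ (Z : ℝ) * (N : ℝ) * V := by
    have e1 : (1 : ℝ) ≤ (Z : ℝ) * (N : ℝ) := by nlinarith
    nlinarith
  have h8 : A + 1 ≤ 11 * (Z : ℝ) * (N : ℝ) * V := by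
    rw [hA]
    linarith
  calc (Z : ℝ) ^ 2 * (A + 1) ≤ (Z : ℝ) ^ 2 * (11 * (Z : ℝ) * (N : ℝ) * V) := by gcongr
    _ ≤ (Z : ℝ) ^ 2 * (11 * (Z : ℝ) * (2 * P) * V) := by gcongr
    _ = 22 * (P * (Z : ℝ) ^ 3 * V) := by ring
    _ ≤ (Z : ℝ) * (P * (Z : ℝ) ^ 3 * V) := by gcongr
    _ = P * (Z : ℝ) ^ 4 * V := by ring

end Pool.Agent.K4W.H70
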