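import Pool.Agent.Helper43_K4W.GSU
import Pool.Agent.Helper68_K4W.GEO
import Pool.Agent.Helper68_K4W.THS
import Pool.Agent.Helper95_K4W.SHD
import Pool.Agent.Helper59_K4W.DVB
import Pool.Agent.Helper51_K4W.VDV
import Pool.Agent.Helper60_K4W.CQB
import Pool.Agent.Helper27_K4W.RED
import Pool.Agent.Helper80_K4W.DYA
import Pool.Agent.Helper94_K4W.SMO
import Pool.Agent.Helper62_K4W.PSL
import Pool.Agent.Helper23_K4W.GRD
import Pool.Agent.Helper70_K4W.VAD

/-!
# K4W, block V complete: the three goals without hypotheses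
-/

set_option autoImplicit false

namespace Pool.Agent.K4W.H70

theorem gsu : GsuStmt := H43.gsu
theorem geo : GeoStmt := H68.geo gsu
theorem ths : ThsStmt := H68.ths gsu geo
theorem shd : ShdStmt := H95.shd gsu ths
theorem dvb : DvbStmt := H59.dvb
theorem vdv : VdvStmt := H51.vdv dvb
theorem smo : SmoStmt := H94.smo shd dvb H60.cqb H27.red H80.dya
theorem grd : GrdStmt := H23.grd H62.psl

theorem v1f : V1Statement := v1 smo
theorem v2f : V2Statement := v2 vdv
theorem v3f : V3Statement := v3 grd

end Pool.Agent.K4W.H70
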